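import Pool.Agent.Helper94.YF.St

/-! # YF module PX -/

set_option autoImplicit false

namespace Pool.Agent.Helper28.YF

open Pool.Agent.Helper94.YF
open Matrix ComplexConjugate

section aux

variable {I : Type} [Fintype I] [DecidableEq I] (Z : CentreRep I)

private theorem rho_inv (g : SL Z.L) : Z.rho g⁻¹ = (Z.rho g)ᴴ := by
  have h1 := Z.unitary g
  have h2 : Z.rho g * Z.rho g⁻¹ = 1 := by rw [← map_mul, mul_inv_cancel, map_one]
  calc Z.rho g⁻¹ = ((Z.rho g)ᴴ * Z.rho g) * Z.rho g⁻¹ := by rw [h1, one_mul]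
    _ = (Z.rho g)ᴴ := by rw [mul_assoc, h2, mul_one]

private theorem lo_eq {L : ℕ} (z : ZMod L) : (Lo z : SL L) = Sm * U (-z) * Sm⁻¹ := by
  rw [eq_mul_inv_iff_mul_eq]
  apply Subtype.ext
  rw [Matrix.SpecialLinearGroup.coe_mul, Matrix.SpecialLinearGroup.coe_mul]
  simp only [Lo, Sm, U, Matrix.mul_fin_two]
  simp

private theorem lo_entry (hU : ∀ z, Z.rho (U z) = Matrix.diagonal (Z.tw z)) (z : ZMod Z.L) (i : I) :
    Z.rho (Lo z) i Z.o = ∑ k, Z.rho Sm i k * Z.tw (-z) k * Z.rho Sm Z.o k := by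
  rw [lo_eq, map_mul, map_mul, rho_inv, hU, Matrix.mul_apply]
  refine Finset.sum_congr rfl fun k _ => ?_
  rw [Matrix.mul_diagonal, Matrix.conjTranspose_apply]
  congr 1
  rw [Z.s_o, Complex.star_def, map_div₀, Complex.conj_natCast, Complex.conj_natCast]

private theorem tw_nsmul (hadd : ∀ x y i, Z.tw (x + y) i = Z.tw x i * Z.tw y i)
    (hzero : ∀ i, Z.tw 0 i = 1) (m : ℕ) (z : ZMod Z.L) (i : I) :
    Z.tw ((m : ZMod Z.L) * z) i = Z.tw z i ^ m := by
  induction m with
  | zero => simp [hzero]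
  | succ m ih => rw [Nat.cast_succ, add_mul, one_mul, hadd, ih, pow_succ]

private theorem j_nat {L P : ℕ} {b : ZMod L} {j : ZMod P → ZMod L} (hj : JH L P b j) (k : ℕ) :
    j (k : ZMod P) = (k : ZMod L) * b := by
  induction k with
  | zero => simp [hj.zero]
  | succ m ih => rw [Nat.cast_succ, hj.add, ih, hj.one, Nat.cast_succ, add_mul, one_mul]

private theorem U_comm {L : ℕ} (b z : ZMod L) (h : (1 - b) * z = 0) :
    (U (1 - b) : SL L) * Lo z = Lo z * U (1 - b) := by
  have h' : z * (1 - b) = 0 := by rw [mul_comm]; exact h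
  apply Subtype.ext
  rw [Matrix.SpecialLinearGroup.coe_mul, Matrix.SpecialLinearGroup.coe_mul]
  simp only [Lo, U, Matrix.mul_fin_two]
  rw [h, h']
  simp

end aux

theorem hPX : StPX := by
  intro hFUS hDUA hRAT hJH hORB hEV I _ _ Z a b y ha hid hy hrem
  classical
  obtain ⟨hU, -, hadd, hzero, hone, hto, hunit, hfus, -, -, -⟩ := hFUS hDUA I Z
  obtain ⟨hss, hso, -, -, -, hrs⟩ := hDUA I Z
  have : NeZero Z.L := ⟨Z.L_pos.ne'⟩
  have : NeZero (2 ^ a) := ⟨by positivity⟩
  obtain ⟨j, hj⟩ := hJH Z.L (2 ^ a) b hid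
  have horb := hORB hFUS hDUA I Z (2 ^ a) b j hid.1 hj
  obtain ⟨hbb, hPb, -, L', hL, -, -⟩ := hid
  obtain ⟨ev0, ev1, ev2, ev3⟩ := hEV a (by omega)
  obtain ⟨p, q, k0, hyo, hpq, hyp, hyq, htp, htq, hk0, hsupp⟩ := hrem
  -- basic numbers
  set h : ℂ := 2 ^ (a - 1) with hh
  have hh0 : h ≠ 0 := pow_ne_zero _ two_ne_zero
  have htwP : ∀ i, Z.tw b i ^ (2 ^ a) = 1 := by
    intro i
    rw [← tw_nsmul Z hadd hzero, ← hzero i]
    congr 1
  have htwPn : ∀ i, Z.tw (-b) i ^ (2 ^ a) = 1 := by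
    intro i
    rw [← tw_nsmul Z hadd hzero, ← hzero i]
    congr 1
    rw [mul_neg, hPb, neg_zero]
  have htwj : ∀ (x : ZMod (2 ^ a)) i, Z.tw (j x) i = Z.tw b i ^ x.val := by
    intro x i
    rw [hj.val, tw_nsmul Z hadd hzero]
  have htwjn : ∀ (x : ZMod (2 ^ a)) i, Z.tw (-(j x)) i = Z.tw (-b) i ^ x.val := by
    intro x i
    rw [hj.val, ← mul_neg, tw_nsmul Z hadd hzero]
  have hbn : ∀ i, Z.tw b i * Z.tw (-b) i = 1 := by
    intro i
    rw [← hadd, add_neg_cancel, hzero]
  have hsqn : ∀ i, (Z.tw (-b) i ^ 2 = 1 ↔ Z.tw b i ^ 2 = 1) := by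
    intro i
    have h1 : Z.tw b i ^ 2 * Z.tw (-b) i ^ 2 = 1 := by rw [← mul_pow, hbn, one_pow]
    constructor
    · intro h2; rw [h2, mul_one] at h1; exact h1
    · intro h2; rw [h2, one_mul] at h1; exact h1
  have hu : ∀ i, Z.rho (s2 b) i Z.o = (y i : ℂ) / 2 := by
    intro i; rw [hy.yu i]; ring
  -- the entries
  have hent : ∀ (x : ZMod (2 ^ a)) i, Z.rho (Lo b * U (j x) * s2 b) i Z.o =
      ∑ k, Z.rho (Lo b) i k * ((y k : ℂ) / 2) * Z.tw b k ^ x.val := by
    intro x i
    rw [map_mul, map_mul, hU, Matrix.mul_apply]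
    refine Finset.sum_congr rfl fun k _ => ?_
    rw [Matrix.mul_diagonal, hu, htwj]; ring
  -- (1)
  have hS1 : ∀ i, (∑ x : ZMod (2 ^ a), if IsUnit x then 0 else Z.rho (Lo b * U (j x) * s2 b) i Z.o) =
      h * (Z.rho (Lo b) i p * ((y p : ℂ) / 2) + Z.rho (Lo b) i q * ((y q : ℂ) / 2)) := by
    intro i
    have e1 : (∑ x : ZMod (2 ^ a), if IsUnit x then 0 else Z.rho (Lo b * U (j x) * s2 b) i Z.o) =
        ∑ k, Z.rho (Lo b) i k * ((y k : ℂ) / 2) *
          (if Z.tw b k ^ 2 = 1 then 2 ^ (a - 1) else 0) := by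
      have : ∀ k, (if Z.tw b k ^ 2 = 1 then (2 : ℂ) ^ (a - 1) else 0) =
          ∑ x : ZMod (2 ^ a), if IsUnit x then 0 else Z.tw b k ^ x.val :=
        fun k => ((ev3 _ (htwP k)).1).symm
      simp_rw [this, Finset.mul_sum]
      rw [Finset.sum_comm]
      refine Finset.sum_congr rfl fun x _ => ?_
      by_cases hx : IsUnit x
      · simp [hx]
      · simp only [hx, if_false]
        rw [hent]
    rw [e1]
    rw [← Finset.sum_subset (Finset.subset_univ ({p, q} : Finset I)), Finset.sum_pair hpq]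
    · rw [htp, htq]; simp; ring
    · intro k _ hk
      simp only [Finset.mem_insert, Finset.mem_singleton, not_or] at hk
      by_cases hyk : y k = 0
      · rw [hyk]; simp
      · rcases hsupp k hyk with h1 | h1 | h1
        · exact absurd h1 hk.1
        · exact absurd h1 hk.2
        · rw [if_neg h1, mul_zero]
  have hS1' : ∀ i, (∑ x : ZMod (2 ^ a), if IsUnit x then 0 else Z.rho (Lo b * U (j x) * s2 b) i Z.o) =
      h * ((if i = p then (y p : ℂ) / 2 else 0) + (if i = q then (y q : ℂ) / 2 else 0)) := by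
    intro i
    have e1 : (∑ x : ZMod (2 ^ a), if IsUnit x then 0 else Z.rho (Lo b * U (j x) * s2 b) i Z.o) =
        ∑ x : ZMod (2 ^ a), if IsUnit x then 0 else
          (fun e => Z.rho (U (j e) * s2 b) i Z.o) (x * Ring.inverse (1 + x)) := by
      refine Finset.sum_congr rfl fun x _ => ?_
      by_cases hx : IsUnit x
      · simp [hx]
      · simp only [hx, if_false]
        obtain ⟨w, hw⟩ := (ev0 x).2 hx
        rw [← hw, Ring.inverse_unit]
        exact (horb x w).1 hw i
    rw [e1]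
    refine (ev1 (fun e => Z.rho (U (j e) * s2 b) i Z.o)).trans ?_
    have e2 : ∀ x : ZMod (2 ^ a), Z.rho (U (j x) * s2 b) i Z.o = Z.tw b i ^ x.val * ((y i : ℂ) / 2) := by
      intro x
      rw [map_mul, hU, Matrix.diagonal_mul, hu, htwj]
    have e3 : (∑ x : ZMod (2 ^ a), if IsUnit x then 0 else Z.rho (U (j x) * s2 b) i Z.o) =
        (if Z.tw b i ^ 2 = 1 then 2 ^ (a - 1) else 0) * ((y i : ℂ) / 2) := by
      rw [← (ev3 _ (htwP i)).1, Finset.sum_mul]
      refine Finset.sum_congr rfl fun x _ => ?_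
      by_cases hx : IsUnit x
      · simp [hx]
      · simp only [hx, if_false]
        rw [e2]
    rw [e3]
    by_cases hip : i = p
    · subst hip
      rw [htp]; simp [hpq]
      exact Or.inl rfl
    · by_cases hiq : i = q
      · subst hiq
        rw [htq]; simp [hip]
        exact Or.inl rfl
      · simp only [hip, hiq, if_false, add_zero, mul_zero]
        by_cases hyk : y i = 0
        · rw [hyk]; simp
        · rcases hsupp i hyk with h1 | h1 | h1
          · exact absurd h1 hip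
          · exact absurd h1 hiq
          · rw [if_neg h1, zero_mul]
  have hE1 : ∀ i, Z.rho (Lo b) i p * ((y p : ℂ) / 2) + Z.rho (Lo b) i q * ((y q : ℂ) / 2) =
      (if i = p then (y p : ℂ) / 2 else 0) + (if i = q then (y q : ℂ) / 2 else 0) := fun i =>
    mul_left_cancel₀ hh0 ((hS1 i).symm.trans (hS1' i))
  -- (2)
  set S : I → ℂ := fun i => ∑ x : ZMod (2 ^ a), if IsUnit x then 0 else Z.rho (Lo (j x)) i Z.o with hS
  have hE2 : ∀ i, h * (Z.rho (Lo b) i p * ((y p : ℂ) / 2) - Z.rho (Lo b) i q * ((y q : ℂ) / 2)) =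
      S i := by
    intro i
    have e1 : (∑ x : ZMod (2 ^ a), if IsUnit x then Z.rho (Lo b * U (j x) * s2 b) i Z.o else 0) =
        ∑ k, Z.rho (Lo b) i k * ((y k : ℂ) / 2) *
          (if Z.tw b k ^ 2 = 1 then Z.tw b k * 2 ^ (a - 1) else 0) := by
      have : ∀ k, (if Z.tw b k ^ 2 = 1 then Z.tw b k * (2 : ℂ) ^ (a - 1) else 0) =
          ∑ x : ZMod (2 ^ a), if IsUnit x then Z.tw b k ^ x.val else 0 :=
        fun k => ((ev3 _ (htwP k)).2).symm
      simp_rw [this, Finset.mul_sum]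
      rw [Finset.sum_comm]
      refine Finset.sum_congr rfl fun x _ => ?_
      by_cases hx : IsUnit x
      · simp only [hx, if_true]
        rw [hent]
      · simp [hx]
    have e2 : (∑ x : ZMod (2 ^ a), if IsUnit x then Z.rho (Lo b * U (j x) * s2 b) i Z.o else 0) =
        ∑ x : ZMod (2 ^ a), if IsUnit x then
          (fun e => Z.rho (Lo (j e)) i Z.o) (1 + Ring.inverse x) else 0 := by
      refine Finset.sum_congr rfl fun x _ => ?_
      by_cases hx : IsUnit x
      · simp only [hx, if_true]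
        obtain ⟨w, hw⟩ := hx
        rw [← hw, Ring.inverse_unit]
        exact (horb (w : ZMod (2 ^ a)) w).2.1 rfl i
      · simp [hx]
    have e3 : S i = ∑ k, Z.rho (Lo b) i k * ((y k : ℂ) / 2) *
          (if Z.tw b k ^ 2 = 1 then Z.tw b k * 2 ^ (a - 1) else 0) := by
      rw [← e1, e2]
      exact (ev2 (fun e => Z.rho (Lo (j e)) i Z.o)).symm
    rw [e3]
    rw [← Finset.sum_subset (Finset.subset_univ ({p, q} : Finset I)), Finset.sum_pair hpq]
    · rw [htp, htq]; simp; ring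
    · intro k _ hk
      simp only [Finset.mem_insert, Finset.mem_singleton, not_or] at hk
      by_cases hyk : y k = 0
      · rw [hyk]; simp
      · rcases hsupp k hyk with h1 | h1 | h1
        · exact absurd h1 hk.1
        · exact absurd h1 hk.2
        · rw [if_neg h1, mul_zero]
  -- (3) integrality
  have htwint : ∀ l, IsIntegral ℤ (Z.tw b l) := fun l =>
    IsIntegral.of_pow (n := 2 ^ a) (by positivity) (by rw [htwP l]; exact isIntegral_one)
  have hypsq : (y p : ℂ) * (y p : ℂ) = 1 := by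
    rcases hyp with h1 | h1 <;> rw [h1] <;> norm_num
  have hαint : ∀ i, IsIntegral ℤ (2 * Z.rho (Lo b) i p) := by
    intro i
    rw [hfus, Finset.mul_sum]
    refine IsIntegral.sum _ fun l _ => ?_
    have : 2 * ((Z.N i (Z.st p) l : ℂ) * Z.rho (Lo b) l Z.o) =
        ((Z.N i (Z.st p) l : ℤ) : ℂ) * (Z.tw b l * ((y l : ℤ) : ℂ)) := by
      rw [← hy.al l]; push_cast; ring
    rw [this]
    exact (isIntegral_algebraMap (R := ℤ) (x := (Z.N i (Z.st p) l : ℤ))).mul
      ((htwint l).mul (isIntegral_algebraMap (R := ℤ) (x := y l)))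
  set F : I → ℂ := fun i => S i / h with hF
  have hFE : ∀ i, 2 * F i = (y p : ℂ) * (2 * Z.rho (Lo b) i p) -
      ((if i = p then (y p : ℂ) else 0) + (if i = q then (y q : ℂ) else 0)) := by
    intro i
    have h1 := hE1 i
    have h2 : F i = Z.rho (Lo b) i p * ((y p : ℂ) / 2) - Z.rho (Lo b) i q * ((y q : ℂ) / 2) := by
      rw [hF]; simp only
      rw [← hE2 i]; field_simp
    rw [h2]
    have h3 : (if i = p then (y p : ℂ) / 2 else 0) = (if i = p then (y p : ℂ) else 0) / 2 := by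
      split_ifs <;> simp
    have h4 : (if i = q then (y q : ℂ) / 2 else 0) = (if i = q then (y q : ℂ) else 0) / 2 := by
      split_ifs <;> simp
    rw [h3, h4] at h1
    linear_combination (-2) * h1
  have hGint : ∀ i, IsIntegral ℤ (2 * F i) := by
    intro i
    rw [hFE]
    refine IsIntegral.sub ((isIntegral_algebraMap (R := ℤ) (x := y p)).mul (hαint i)) ?_
    refine IsIntegral.add ?_ ?_
    · split_ifs
      · exact isIntegral_algebraMap (R := ℤ) (x := y p)
      · exact isIntegral_zero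
    · split_ifs
      · exact isIntegral_algebraMap (R := ℤ) (x := y q)
      · exact isIntegral_zero
  -- (4) Galois invariance
  have hdvd : 2 ^ a ∣ Z.L := ⟨L', hL⟩
  have hσS : ∀ (σ : ℂ ≃+* ℂ) i, σ (S i) = S i := by
    intro σ i
    obtain ⟨c, hc⟩ := Z.galois σ
    set c' : (ZMod (2 ^ a))ˣ := Units.map (ZMod.castHom hdvd (ZMod (2 ^ a))).toMonoidHom c⁻¹ with hc'
    have hjc : ∀ x, j ((c' : ZMod (2 ^ a)) * x) = ((c⁻¹ : (ZMod Z.L)ˣ) : ZMod Z.L) * j x := by
      intro x
      have h1 : (c' : ZMod (2 ^ a)) = ((((c⁻¹ : (ZMod Z.L)ˣ) : ZMod Z.L).val : ℕ) : ZMod (2 ^ a)) := by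
        rw [hc', Units.coe_map]
        change ZMod.castHom hdvd (ZMod (2 ^ a)) ((c⁻¹ : (ZMod Z.L)ˣ) : ZMod Z.L) = _
        conv_lhs => rw [← ZMod.natCast_zmod_val ((c⁻¹ : (ZMod Z.L)ˣ) : ZMod Z.L)]
        rw [map_natCast]
      have h2 : j (c' : ZMod (2 ^ a)) = ((c⁻¹ : (ZMod Z.L)ˣ) : ZMod Z.L) * b := by
        rw [h1, j_nat hj, ZMod.natCast_zmod_val]
      have h3 : b * j x = j x := by
        rw [← hj.one, ← hj.mul, one_mul]
      rw [hj.mul, h2, mul_assoc, h3]
    have h4 : σ (S i) = ∑ x : ZMod (2 ^ a), if IsUnit ((c' : ZMod (2 ^ a)) * x) then 0 else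
        Z.rho (Lo (j ((c' : ZMod (2 ^ a)) * x))) i Z.o := by
      rw [hS]; simp only
      rw [map_sum]
      refine Finset.sum_congr rfl fun x _ => ?_
      by_cases hx : IsUnit x
      · have hx' : IsUnit ((c' : ZMod (2 ^ a)) * x) := (Units.isUnit_units_mul c' x).2 hx
        simp [hx, hx']
      · have hx' : ¬ IsUnit ((c' : ZMod (2 ^ a)) * x) := fun h0 => hx ((Units.isUnit_units_mul c' x).1 h0)
        simp only [hx, hx', if_false]
        rw [hjc]
        refine (hc (Lo (j x)) (Lo (((c⁻¹ : (ZMod Z.L)ˣ) : ZMod Z.L) * j x)) ?_ ?_ ?_ ?_ i Z.o).symm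
        · simp [Lo]
        · simp [Lo]
        · simp [Lo]
        · simp [Lo]
    rw [h4]
    exact Equiv.sum_comp (Units.mulLeft c') fun x => if IsUnit x then 0 else Z.rho (Lo (j x)) i Z.o
  have hσ : ∀ (σ : ℂ ≃+* ℂ) i, σ (2 * F i) = 2 * F i := by
    intro σ i
    rw [hF]; simp only
    rw [map_mul, map_div₀, hσS, hh, map_pow, map_ofNat]
  choose G hG using fun i => hRAT.1 (2 * F i) (hGint i) (fun σ => hσ σ i)
  -- (5)
  have hsor : ∀ k, conj (Z.rho Sm Z.o k) = Z.rho Sm Z.o k := by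
    intro k
    rw [Z.s_o, map_div₀, Complex.conj_natCast, Complex.conj_natCast]
  have hSf : ∀ i, S i = ∑ k, Z.rho Sm i k * (Z.rho Sm Z.o k *
      (if Z.tw b k ^ 2 = 1 then 2 ^ (a - 1) else 0)) := by
    intro i
    have : ∀ k, (if Z.tw b k ^ 2 = 1 then (2 : ℂ) ^ (a - 1) else 0) =
        ∑ x : ZMod (2 ^ a), if IsUnit x then 0 else Z.tw (-b) k ^ x.val := by
      intro k
      rw [(ev3 _ (htwPn k)).1]
      simp only [hsqn]
      rfl
    simp_rw [this, Finset.mul_sum]
    rw [Finset.sum_comm]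
    rw [hS]; simp only
    refine Finset.sum_congr rfl fun x _ => ?_
    by_cases hx : IsUnit x
    · simp [hx]
    · simp only [hx, if_false]
      rw [lo_entry Z hU]
      refine Finset.sum_congr rfl fun k _ => ?_
      rw [htwjn]; ring
  set w : I → ℂ := fun k => if Z.tw b k ^ 2 = 1 then Z.rho Sm Z.o k else 0 with hw
  have hFf : ∀ i, F i = ∑ k, Z.rho Sm i k * w k := by
    intro i
    rw [hF]; simp only
    rw [hSf, Finset.sum_div]
    refine Finset.sum_congr rfl fun k _ => ?_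
    rw [hw]; simp only
    split_ifs
    · rw [← hh]; field_simp
    · simp
  have hFv : F = Z.rho Sm *ᵥ w := by
    ext i; rw [hFf]; rfl
  have hwr : ∀ k, conj (w k) = w k := by
    intro k
    rw [hw]; simp only
    split_ifs
    · exact hsor k
    · simp
  have hFo : F Z.o = ∑ k, w k * w k := by
    rw [hFf]
    refine Finset.sum_congr rfl fun k _ => ?_
    rw [hw]; simp only
    split_ifs <;> simp
  have hFG : ∀ i, F i = (G i : ℂ) / 2 := by
    intro i; rw [hG i]; ring
  have hnorm : ∑ i, conj (F i) * F i = ∑ k, conj (w k) * w k := by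
    have h1 : star F ⬝ᵥ F = star w ⬝ᵥ w := by
      rw [hFv, Matrix.star_mulVec, Matrix.dotProduct_mulVec, Matrix.vecMul_vecMul, Z.unitary,
        Matrix.vecMul_one]
    exact h1
  have hn0 : (Z.n : ℂ) ≠ 0 := by exact_mod_cast Z.n_pos.ne'
  have hso' : ∀ i, Z.rho Sm i Z.o = (Z.d i : ℂ) / Z.n := by
    intro i; rw [Z.s_symm, Z.s_o]
  have hsq : ∑ i, (G i) ^ 2 = 2 * G Z.o := by
    have h1 : ∑ i, conj (F i) * F i = F Z.o := by
      rw [hnorm, hFo]
      exact Finset.sum_congr rfl fun k _ => by rw [hwr]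
    have h2 : ∑ i, ((G i : ℂ)) ^ 2 = 2 * (G Z.o : ℂ) := by
      have h3 : ∀ i, ((G i : ℂ)) ^ 2 = 4 * (conj (F i) * F i) := by
        intro i; rw [hFG i, map_div₀, map_intCast, map_ofNat]
        ring
      simp_rw [h3]
      rw [← Finset.mul_sum, h1, hFG]; ring
    exact_mod_cast h2
  have hlin : ∑ i, G i * (Z.d i : ℤ) = 2 := by
    have h1 : ∑ i, conj (Z.rho Sm i Z.o) * F i = w Z.o := by
      have h2 : ((Z.rho Sm)ᴴ *ᵥ F) Z.o = w Z.o := by
        rw [hFv, Matrix.mulVec_mulVec, Z.unitary, Matrix.one_mulVec]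
      exact h2
    have h3 : w Z.o = 1 / Z.n := by
      rw [hw]; simp only
      rw [hto, one_pow, if_pos rfl, Z.s_o, Z.d_o, Nat.cast_one]
    have h4 : ∑ i, (G i : ℂ) * (Z.d i : ℂ) = 2 := by
      have h5 : ∀ i, (G i : ℂ) * (Z.d i : ℂ) = 2 * Z.n * (conj (Z.rho Sm i Z.o) * F i) := by
        intro i
        rw [hFG, hso', map_div₀, Complex.conj_natCast, Complex.conj_natCast]
        field_simp
      simp_rw [h5]
      rw [← Finset.mul_sum, h1, h3]
      field_simp
    exact_mod_cast h4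
  -- (6)
  have hreal : (G Z.o : ℝ) / 2 = ∑ k, (if Z.tw b k ^ 2 = 1 then ((Z.d k : ℝ) / Z.n) ^ 2 else 0) := by
    have h1 : ((G Z.o : ℂ)) / 2 = ∑ k, (if Z.tw b k ^ 2 = 1 then ((Z.d k : ℂ) / Z.n) ^ 2 else 0) := by
      rw [← hFG, hFo]
      refine Finset.sum_congr rfl fun k _ => ?_
      rw [hw]; simp only
      split_ifs
      · rw [Z.s_o]; ring
      · simp
    have h2 : (((G Z.o : ℝ) / 2 : ℝ) : ℂ) =
        ((∑ k, (if Z.tw b k ^ 2 = 1 then ((Z.d k : ℝ) / Z.n) ^ 2 else 0) : ℝ) : ℂ) := by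
      push_cast
      rw [h1]
      refine Finset.sum_congr rfl fun k _ => ?_
      split_ifs <;> simp
    exact_mod_cast h2
  have htot : ∑ k, ((Z.d k : ℝ) / Z.n) ^ 2 = 1 := by
    have h1 := congrFun (congrFun (Z.unitary Sm) Z.o) Z.o
    rw [Matrix.mul_apply, Matrix.one_apply_eq] at h1
    have h2 : ∑ k, ((Z.d k : ℂ) / Z.n) ^ 2 = 1 := by
      rw [← h1]
      refine Finset.sum_congr rfl fun k _ => ?_
      rw [Matrix.conjTranspose_apply, hso', Complex.star_def, map_div₀, Complex.conj_natCast,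
        Complex.conj_natCast]
      ring
    apply Complex.ofReal_injective
    push_cast
    exact h2
  have hnR : (0 : ℝ) < Z.n := by exact_mod_cast Z.n_pos
  have hterm : ∀ k, (0 : ℝ) < ((Z.d k : ℝ) / Z.n) ^ 2 := by
    intro k
    have : (0 : ℝ) < Z.d k := by exact_mod_cast Z.d_pos k
    positivity
  have hGo : G Z.o = 1 := by
    have h1 : (0 : ℝ) < (G Z.o : ℝ) / 2 := by
      rw [hreal]
      refine Finset.sum_pos' (fun k _ => ?_) ⟨Z.o, Finset.mem_univ _, ?_⟩
      · split_ifs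
        · exact (hterm k).le
        · exact le_rfl
      · rw [hto, one_pow, if_pos rfl]; exact hterm _
    have h2 : (G Z.o : ℝ) / 2 < 1 := by
      rw [hreal, ← htot]
      refine Finset.sum_lt_sum (fun k _ => ?_) ⟨k0, Finset.mem_univ _, ?_⟩
      · split_ifs
        · exact le_rfl
        · exact (hterm k).le
      · rw [if_neg hk0]; exact hterm _
    have h3 : (0 : ℝ) < G Z.o := by linarith
    have h4 : (G Z.o : ℝ) < 2 := by linarith
    have h5 : 0 < G Z.o := by exact_mod_cast h3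
    have h6 : G Z.o < 2 := by exact_mod_cast h4
    omega
  rw [hGo] at hsq
  have hsq' : ∑ i ∈ Finset.univ.erase Z.o, (G i) ^ 2 = 1 := by
    have := Finset.add_sum_erase Finset.univ (fun i => (G i) ^ 2) (Finset.mem_univ Z.o)
    rw [hGo] at this
    linarith
  obtain ⟨x, hxm, hGx⟩ : ∃ x ∈ Finset.univ.erase Z.o, G x ^ 2 ≠ 0 := by
    by_contra hcon
    push Not at hcon
    rw [Finset.sum_eq_zero hcon] at hsq'
    exact absurd hsq' (by norm_num)
  have hxo : x ≠ Z.o := (Finset.mem_erase.1 hxm).1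
  have hGx0 : G x ≠ 0 := fun h0 => hGx (by rw [h0]; norm_num)
  have huniq : ∀ i, i ≠ Z.o → i ≠ x → G i = 0 := by
    intro i hio hix
    have h1 := Finset.add_sum_erase (Finset.univ.erase Z.o) (fun i => (G i) ^ 2) hxm
    have hmem : i ∈ (Finset.univ.erase Z.o).erase x :=
      Finset.mem_erase.2 ⟨hix, Finset.mem_erase.2 ⟨hio, Finset.mem_univ _⟩⟩
    have h2 : G i ^ 2 ≤ ∑ i ∈ (Finset.univ.erase Z.o).erase x, G i ^ 2 :=
      Finset.single_le_sum (f := fun i => G i ^ 2) (fun i _ => sq_nonneg _) hmem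
    rw [hsq'] at h1
    have h3 : 1 ≤ G x ^ 2 := by
      have := sq_nonneg (G x)
      omega
    have h4 : G i ^ 2 ≤ 0 := by linarith
    exact pow_eq_zero_iff (two_ne_zero) |>.1 (le_antisymm h4 (sq_nonneg _))
  have hGd : G x * (Z.d x : ℤ) = 1 := by
    have h1 := Finset.add_sum_erase Finset.univ (fun i => G i * (Z.d i : ℤ)) (Finset.mem_univ Z.o)
    have h2 := Finset.add_sum_erase (Finset.univ.erase Z.o) (fun i => G i * (Z.d i : ℤ)) hxm
    have h3 : ∑ i ∈ (Finset.univ.erase Z.o).erase x, G i * (Z.d i : ℤ) = 0 := by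
      refine Finset.sum_eq_zero fun i hi => ?_
      rw [Finset.mem_erase, Finset.mem_erase] at hi
      rw [huniq i hi.2.1 hi.1, zero_mul]
    rw [h3] at h2
    rw [hGo, Z.d_o] at h1
    rw [hlin, ← h2] at h1
    push_cast at h1
    linarith
  have hdx : Z.d x = 1 := by
    have h1 : IsUnit ((Z.d x : ℤ)) := IsUnit.of_mul_eq_one (G x) (by rw [mul_comm]; exact hGd)
    have h2 := Int.isUnit_iff.1 h1
    have := Z.d_pos x
    omega
  have hSx : ∀ i, G i ≠ 0 → S i ≠ 0 := by
    intro i hi h0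
    apply hi
    have : (G i : ℂ) = 0 := by
      rw [hG i, hF]; simp only
      rw [h0]; simp
    exact_mod_cast this
  -- (7)
  have htb : Z.tw b x = 1 := by
    have e1 : Z.tw b x * S x = S x := by
      have e2 : Z.tw b x * S x = ∑ c : ZMod (2 ^ a), if IsUnit c then 0 else
          (fun e => Z.rho (Lo (j e)) x Z.o) (c * Ring.inverse (1 + c)) := by
        rw [hS]; simp only
        rw [Finset.mul_sum]
        refine Finset.sum_congr rfl fun c _ => ?_
        by_cases hc : IsUnit c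
        · simp [hc]
        · simp only [hc, if_false]
          obtain ⟨w', hw'⟩ := (ev0 c).2 hc
          rw [← hw', Ring.inverse_unit, ← (horb c w').2.2 hw' x, map_mul, hU, Matrix.diagonal_mul]
      rw [e2]
      exact ev1 (fun e => Z.rho (Lo (j e)) x Z.o)
    exact mul_right_cancel₀ (hSx x hGx0) (by rw [e1, one_mul])
  have htb' : Z.tw (1 - b) x = 1 := by
    have e1 : Z.tw (1 - b) x * S x = S x := by
      rw [hS]; simp only
      rw [Finset.mul_sum]
      refine Finset.sum_congr rfl fun c _ => ?_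
      by_cases hc : IsUnit c
      · simp [hc]
      · simp only [hc, if_false]
        have h3 : b * j c = j c := by
          rw [← hj.one, ← hj.mul, one_mul]
        have h4 : (1 - b) * j c = 0 := by rw [sub_mul, one_mul, h3, sub_self]
        have h5 := congrArg (fun g => Z.rho g x Z.o) (U_comm b (j c) h4)
        rw [map_mul, map_mul, hU, Matrix.diagonal_mul, Matrix.mul_diagonal, hto, mul_one] at h5
        exact h5
    exact mul_right_cancel₀ (hSx x hGx0) (by rw [e1, one_mul])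
  refine ⟨x, hxo, hdx, ?_, ?_⟩
  · have h1 := hadd b (1 - b) x
    rw [htb, htb', mul_one, add_sub_cancel, hone] at h1
    exact h1
  · have hSst : S (Z.st x) = S x := by
      rw [hS]; simp only
      refine Finset.sum_congr rfl fun c _ => ?_
      have := hrs (Lo (j c)) x Z.o
      rw [hso] at this
      rw [this]
    by_contra hne
    have h1 : Z.st x ≠ Z.o := by
      intro h0
      apply hxo
      rw [← hss x, h0, hso]
    have h2 := huniq (Z.st x) h1 hne
    have h3 : (G (Z.st x) : ℂ) = (G x : ℂ) := by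
      rw [hG, hG, hF]; simp only
      rw [hSst]
    rw [h2] at h3
    apply hGx0
    exact_mod_cast h3.symm

end Pool.Agent.Helper28.YF
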